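import Pool.Agent.R910.Mu.RelLayers

/-!
# Growth of the Iwasawa cohomology of lattices in elementary abelian extensions
-/

set_option autoImplicit false

namespace Pool.Agent.Results.MP_519cc8_nt.ElementaryGrowth

open Pool.Agent.R910.Mu

/-- A finitely generated module over the Iwasawa algebra `Z_p[[T]]` is torsion with vanishing
mu-invariant if and only if it is killed by a power series not divisible by `p`. -/
def TorsionMuZero {p : ℕ} [Fact p.Prime] (M : ModuleCat.{0} (PowerSeries ℤ_[p])) : Prop :=
  ∃ f : PowerSeries ℤ_[p], (∀ x : M, f • x = 0) ∧ ¬ PowerSeries.C (p : ℤ_[p]) ∣ f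

/-- The modules `H L`, for the extensions `L` of the number field `K`, and the theory `𝒯` are
compatible. For a lattice `T` with action of the Galois group of `K` take `H L` to be the second
Iwasawa cohomology of `T` over `L`, and `𝒯` the Iwasawa cohomology of the modules `A ⊗ (T/p)`,
tensored with `F_p((T))`. Then this is known, with `c` the sum of
`rank T - rank (T fixed by the complex conjugation at v)` over the real places `v` of `K` and of
`rank T` over the complex places: the first condition is the Euler characteristic formula, the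
others are Shapiro's lemma and the vanishing of the third cohomology. -/
structure Compatible {p : ℕ} [Fact p.Prime] {K : IntermediateField ℚ Om}
    (𝒯 : FullCohomology p (GalRel K)) (c : ℕ)
    (H : IntermediateField ℚ Om → ModuleCat.{0} (PowerSeries ℤ_[p])) : Prop where
  euler : ∀ A : GMod p (GalRel K), IsEvenRel A →
    𝒯.h1 A = 𝒯.h2 A + c * Module.finrank (ZMod p) A.carrier
  base : TorsionMuZero (H K) ↔ 𝒯.h2 (triv p (GalRel K)) = 0
  extensions : ∀ (L : IntermediateField ℚ Om) (hL : FiniteDimensional ℚ L), K ≤ L →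
    (TorsionMuZero (H L) ↔ 𝒯.h2 (permRel p K L hL) = 0)

/-- **Growth.** For Iwasawa cohomology `𝒯.h2 (triv p (GalRel K))` and `𝒯.h2 (permRel p K L hL)`
are the sums of the rank and the number of factors `Λ/(p ^ m)` of the modules `H K` and `H L`. -/
theorem result (p : ℕ) [Fact p.Prime] (hp : p ≠ 2) (K : IntermediateField ℚ Om)
    (_hK : FiniteDimensional ℚ K) (𝒯 : FullCohomology p (GalRel K)) (c : ℕ)
    (H : IntermediateField ℚ Om → ModuleCat.{0} (PowerSeries ℤ_[p])) (hT : Compatible 𝒯 c H)
    (b : ℕ) (L : IntermediateField ℚ Om) (hL : FiniteDimensional ℚ L)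
    (hel : IsElemOver p K L b) :
    (∀ j : ℕ, j ≤ b * (p - 1) →
      countEq p b j * 𝒯.h2 (triv p (GalRel K)) ≤
        𝒯.h2 (permRel p K L hL) + c * countLt p b j) ∧
    (¬ TorsionMuZero (H K) → ¬ TorsionMuZero (H L) ∧ ∀ j : ℕ, (c + 3) * j ≤ b →
      (c + 2) ^ j ≤ (c + 1) * 𝒯.h2 (permRel p K L hL)) := by
  have he : ∀ A : GMod p (GalRel K), ActsVia (relSub K L) A →
      𝒯.h1 A = 𝒯.h2 A + c * Module.finrank (ZMod p) A.carrier :=
    fun A hA => hT.euler A (even_of_actsVia hp hel A hA)
  refine ⟨fun j hj => layers_rel K 𝒯 c b L hL hel he j hj, fun h => ?_⟩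
  have h0 : 𝒯.h2 (triv p (GalRel K)) ≠ 0 := fun h1 => h (hT.base.mpr h1)
  refine ⟨fun h1 => ?_, fun j hj => exponential_rel K 𝒯 c b L hL hel he h0 j hj⟩
  have h2 := (hT.extensions L hL hel.1).mp h1
  have h3 := layers_rel K 𝒯 c b L hL hel he 0 (Nat.zero_le _)
  rw [countEq_zero, countLt_zero, h2] at h3
  omega

end Pool.Agent.Results.MP_519cc8_nt.ElementaryGrowth
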