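import Pool.Agent.R910.Mu.Lat

/-!
# Torsion and vanishing mu for one lattice, from trivial coefficients over one field
-/

set_option autoImplicit false

namespace Pool.Agent.Results.MP_519cc8_nt.OneField

open Pool.Agent.R910.Mu

/-- A finitely generated module over the Iwasawa algebra `Z_p[[T]]` is torsion with vanishing
mu-invariant if and only if it is killed by a power series not divisible by `p`. -/
def TorsionMuZero {p : ℕ} [Fact p.Prime] (M : ModuleCat.{0} (PowerSeries ℤ_[p])) : Prop :=
  ∃ f : PowerSeries ℤ_[p], (∀ x : M, f • x = 0) ∧ ¬ PowerSeries.C (p : ℤ_[p]) ∣ f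

/-- The modules `H M` and the localized theory `T` are compatible. For `H M` the second Iwasawa
cohomology of the lattice `M` over `ℚ` and `T` the Iwasawa cohomology of finite modules tensored
with `F_p((T))` this is known: the cohomology of the trivial module has rank zero (mu vanishes for
`ℚ`), and the second cohomology of `M` modulo `p` is that of the reduction of `M`. -/
structure Compatible {p : ℕ} [Fact p.Prime] (T : LocalizedCohomology p Gal)
    (H : Lattice p Gal → ModuleCat.{0} (PowerSeries ℤ_[p])) : Prop where
  h1_triv : T.h1 (triv p Gal) = 0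
  reduction : ∀ M : Lattice p Gal, TorsionMuZero (H M) ↔ T.h2 M.red = 0

/-- **One lattice, from one field.** -/
theorem result (p : ℕ) [Fact p.Prime] (_hp : p ≠ 2) (hsol : HasSplitSolutions p Gal)
    (T : LocalizedCohomology p Gal) (H : Lattice p Gal → ModuleCat.{0} (PowerSeries ℤ_[p]))
    (hT : Compatible T H) (M : Lattice p Gal) (m : ℕ) :
    ∃ (F : IntermediateField ℚ Om) (hF : FiniteDimensional ℚ F),
      Module.finrank ℚ F = Nat.card M.red.carrier ^ (m + 1) ∧
      (m + 1) * T.h2 M.red ≤ T.h2 (fieldLat p F hF).red ∧
      (TorsionMuZero (H (fieldLat p F hF)) → TorsionMuZero (H M)) := by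
  obtain ⟨J, hfin, hJ, hi, hle⟩ := exists_subgroup hsol T M.red m
  rw [hT.h1_triv, add_zero] at hle
  have hF := finite_fixedField J hJ
  have hle' : (m + 1) * T.h2 M.red ≤
      T.h2 (fieldLat p (IntermediateField.fixedField J) hF).red := by
    rw [fieldLat_red, h2_fieldMod_fixedField T J hJ]
    exact hle
  refine ⟨IntermediateField.fixedField J, hF, ?_, hle', fun h => ?_⟩
  · rw [IntermediateField.finrank_eq_fixingSubgroup_index, exists_field J hJ, hi]
  · rw [hT.reduction] at h ⊢
    rw [h] at hle'
    have h1 : (m + 1) * T.h2 M.red = 0 := by omega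
    exact (Nat.mul_eq_zero.mp h1).resolve_left (Nat.succ_ne_zero m)

end Pool.Agent.Results.MP_519cc8_nt.OneField
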