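import Pool.Agent.R910.Mu.Lat

/-!
# Torsion and vanishing mu for all lattices, from trivial coefficients over primitive fields of
`p`-power degree
-/

set_option autoImplicit false

namespace Pool.Agent.Results.MP_519cc8_nt.TrivialCoefficients

open Pool.Agent.R910.Mu

/-- A finitely generated module over the Iwasawa algebra `Z_p[[T]]` is torsion with vanishing
mu-invariant if and only if it is killed by a power series not divisible by `p`. -/
def TorsionMuZero {p : ℕ} [Fact p.Prime] (M : ModuleCat.{0} (PowerSeries ℤ_[p])) : Prop :=
  ∃ f : PowerSeries ℤ_[p], (∀ x : M, f • x = 0) ∧ ¬ PowerSeries.C (p : ℤ_[p]) ∣ f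

/-- The modules `H M` and the localized theory `T` are compatible. For `H M` the second Iwasawa
cohomology of the lattice `M` over `ℚ` and `T` the Iwasawa cohomology of finite modules tensored
with `F_p((T))` this is known: the cohomology of the trivial module has rank zero (mu vanishes for
`ℚ`), and the second cohomology of `M` modulo `p` is that of the reduction of `M`. -/
structure Compatible {p : ℕ} [Fact p.Prime] (T : LocalizedCohomology p Gal)
    (H : Lattice p Gal → ModuleCat.{0} (PowerSeries ℤ_[p])) : Prop where
  h1_triv : T.h1 (triv p Gal) = 0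
  reduction : ∀ M : Lattice p Gal, TorsionMuZero (H M) ↔ T.h2 M.red = 0

/-- **All lattices, from the trivial lattice over primitive fields of `p`-power degree.** -/
theorem result (p : ℕ) [Fact p.Prime] (_hp : p ≠ 2) (hsol : HasSplitSolutions p Gal)
    (T : LocalizedCohomology p Gal) (H : Lattice p Gal → ModuleCat.{0} (PowerSeries ℤ_[p]))
    (hT : Compatible T H) :
    (∀ M : Lattice p Gal,
      (∀ (F : IntermediateField ℚ Om) (hF : FiniteDimensional ℚ F), IsPrimitive F →
        (∃ n : ℕ, Module.finrank ℚ F = p ^ n) → Module.finrank ℚ F ≤ Nat.card M.red.carrier →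
        TorsionMuZero (H (fieldLat p F hF))) → TorsionMuZero (H M)) ∧
    ((∀ M : Lattice p Gal, TorsionMuZero (H M)) ↔
      ∀ (F : IntermediateField ℚ Om) (hF : FiniteDimensional ℚ F), IsPrimitive F →
        (∃ n : ℕ, Module.finrank ℚ F = p ^ n) → TorsionMuZero (H (fieldLat p F hF))) := by
  have h1 : ∀ M : Lattice p Gal,
      (∀ (F : IntermediateField ℚ Om) (hF : FiniteDimensional ℚ F), IsPrimitive F →
        (∃ n : ℕ, Module.finrank ℚ F = p ^ n) → Module.finrank ℚ F ≤ Nat.card M.red.carrier →
        TorsionMuZero (H (fieldLat p F hF))) → TorsionMuZero (H M) := by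
    intro M h
    rw [hT.reduction]
    refine h2_eq_zero_of_primitive hsol T hT.h1_triv M.red fun F hF hprim hn hle => ?_
    have := (hT.reduction _).mp (h F hF hprim hn hle)
    rwa [fieldLat_red] at this
  exact ⟨h1, fun h F hF _ _ => h _, fun h M => h1 M fun F hF hprim hn _ => h F hF hprim hn⟩

end Pool.Agent.Results.MP_519cc8_nt.TrivialCoefficients
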